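import Pool.Agent.Run7.h982.QP.Iface

/-!
# Project QP, piece POS: the projection of an indicator function is nonnegative
-/

set_option autoImplicit false
set_option linter.unusedSectionVars false

namespace Pool.Agent.Run7.h722.QP

open Finset Filter Topology MeasureTheory ProbabilityTheory
open scoped InnerProductSpace ENNReal NNReal
open Pool.Agent.K7.H83.MA Pool.Agent.Run7.h982.QP

universe u

section hilbert
variable {H : Type u} [NormedAddCommGroup H] [InnerProductSpace ℂ H] [CompleteSpace H]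

theorem spa_false : Spa (fun _ => False) := by
  unfold Spa
  simp only [if_false]
  exact summable_zero

theorem per_zero (v : ℕ → H →L[ℂ] H) : Per1 v 0 :=
  ⟨1, one_pos, fun _ => False, spa_false, fun n _ _ _ => map_zero _⟩

theorem per_add {v : ℕ → H →L[ℂ] H} {x y : H} (hx : Per1 v x) (hy : Per1 v y) :
    Per1 v (x + y) := by
  obtain ⟨Q, hQ, E, hE, h⟩ := hx
  obtain ⟨Q', hQ', E', hE', h'⟩ := hy
  refine ⟨Q * Q', Nat.mul_pos hQ hQ', fun p => E p ∨ E' p, hE.or hE', fun n hn hnQ hp => ?_⟩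
  have h1 : n ≡ 1 [MOD Q * Q'] := hnQ
  have h2 : n % Q = 1 % Q := h1.of_mul_right Q'
  have h3 : n % Q' = 1 % Q' := h1.of_mul_left Q
  rw [map_add, h n hn h2 fun p hpp hpn hE1 => hp p hpp hpn (Or.inl hE1),
    h' n hn h3 fun p hpp hpn hE1 => hp p hpp hpn (Or.inr hE1)]

theorem per_smul {v : ℕ → H →L[ℂ] H} {x : H} (a : ℂ) (hx : Per1 v x) : Per1 v (a • x) := by
  obtain ⟨Q, hQ, E, hE, h⟩ := hx
  exact ⟨Q, hQ, E, hE, fun n hn hnQ hp => by rw [map_smul, h n hn hnQ hp]⟩

theorem per_span (v : ℕ → H →L[ℂ] H) {x : H} (hx : x ∈ Submodule.span ℂ {y | Per1 v y}) :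
    Per1 v x := by
  induction hx using Submodule.span_induction with
  | mem x h => exact h
  | zero => exact per_zero v
  | add x y _ _ hx hy => exact per_add hx hy
  | smul a x _ hx => exact per_smul a hx

/-- a continuous map which preserves `Per1` maps `ZZ` to itself -/
theorem ZZ_map (v : ℕ → H →L[ℂ] H) (Φ : H → H) (hΦ : Continuous Φ)
    (h : ∀ y, Per1 v y → Per1 v (Φ y)) {x : H} (hx : x ∈ ZZ v) : Φ x ∈ ZZ v := by
  have h1 : Φ x ∈ closure ((Submodule.span ℂ {y | Per1 v y} : Submodule ℂ H) : Set H) := by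
    refine map_mem_closure hΦ (s := ((Submodule.span ℂ {y | Per1 v y} : Submodule ℂ H) : Set H))
      ?_ ?_
    · have h2 : x ∈ (Submodule.span ℂ {y | Per1 v y}).topologicalClosure := hx
      rwa [← SetLike.mem_coe, Submodule.topologicalClosure_coe] at h2
    · intro y hy
      exact Submodule.subset_span (h y (per_span v hy))
  have h2 : Φ x ∈ (Submodule.span ℂ {y | Per1 v y}).topologicalClosure := by
    rwa [← SetLike.mem_coe, Submodule.topologicalClosure_coe]
  exact h2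

/-- a nonexpansive map which preserves `ZZ` and fixes `g` fixes the projection of `g` -/
theorem PZ_fix (v : ℕ → H →L[ℂ] H) (Φ : H → H) (h1 : ∀ x y, ‖Φ x - Φ y‖ ≤ ‖x - y‖)
    (h : ∀ y, Per1 v y → Per1 v (Φ y)) {g : H} (hg : Φ g = g) : Φ (PZ v g) = PZ v g := by
  have hc : Continuous Φ := by
    have : LipschitzWith 1 Φ := LipschitzWith.of_dist_le_mul fun x y => by
      rw [dist_eq_norm, dist_eq_norm, NNReal.coe_one, one_mul]
      exact h1 x y
    exact this.continuous
  have hf : PZ v g ∈ ZZ v := (ZZ v).starProjection_apply_mem g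
  have hΦ := ZZ_map v Φ hc h hf
  have h2 : ⟪PZ v g - Φ (PZ v g), g - PZ v g⟫_ℂ = 0 :=
    (Submodule.mem_orthogonal _ _).1 ((ZZ v).sub_starProjection_mem_orthogonal g) _
      ((ZZ v).sub_mem hf hΦ)
  have h3 := norm_add_sq_eq_norm_sq_add_norm_sq_of_inner_eq_zero (𝕜 := ℂ)
    (PZ v g - Φ (PZ v g)) (g - PZ v g) h2
  have h4 : PZ v g - Φ (PZ v g) + (g - PZ v g) = g - Φ (PZ v g) := by abel
  rw [h4] at h3
  have h5 : ‖g - Φ (PZ v g)‖ ≤ ‖g - PZ v g‖ := by
    have := h1 g (PZ v g)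
    rwa [hg] at this
  have h6 : ‖PZ v g - Φ (PZ v g)‖ = 0 := by
    have h7 := norm_nonneg (PZ v g - Φ (PZ v g))
    have h8 := norm_nonneg (g - Φ (PZ v g))
    nlinarith
  exact (sub_eq_zero.1 (norm_eq_zero.1 h6)).symm

end hilbert

/-- positive part of the real part -/
noncomputable def pp (w : ℂ) : ℂ := ((max w.re 0 : ℝ) : ℂ)

theorem pp_lip : LipschitzWith 1 pp := by
  refine LipschitzWith.of_dist_le_mul fun x y => ?_
  rw [dist_eq_norm, dist_eq_norm, NNReal.coe_one, one_mul]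
  unfold pp
  rw [← Complex.ofReal_sub, Complex.norm_real, Real.norm_eq_abs]
  refine (abs_max_sub_max_le_abs _ _ _).trans ?_
  rw [← Complex.sub_re]
  exact Complex.abs_re_le_norm _

theorem pp_zero : pp 0 = 0 := by simp [pp]

theorem bm_iF {X : Type u} [MeasurableSpace X] {A : Set X} (hA : MeasurableSet A) : BM (iF A) := by
  refine ⟨measurable_const.indicator hA, 1, zero_le_one, fun x => ?_⟩
  unfold iF
  by_cases h : x ∈ A
  · rw [Set.indicator_of_mem h]; simp
  · rw [Set.indicator_of_notMem h]; simp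

theorem t_POS : S_POS.{u} := by
  intro X _ _ μ _ r c T hT A hA
  set Φ : Lp ℂ 2 μ → Lp ℂ 2 μ := fun f => pp_lip.compLp pp_zero f with hΦ
  have hcoe : ∀ f : Lp ℂ 2 μ, Φ f =ᵐ[μ] fun x => pp (f x) := fun f =>
    pp_lip.coeFn_compLp pp_zero f
  have h1 : ∀ x y, ‖Φ x - Φ y‖ ≤ ‖x - y‖ := by
    intro x y
    have := pp_lip.norm_compLp_sub_le pp_zero x y
    rwa [NNReal.coe_one, one_mul] at this
  have hcomm : ∀ n : ℕ, 0 < n → ∀ f : Lp ℂ 2 μ, koop μ T n (Φ f) = Φ (koop μ T n f) := by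
    intro n hn f
    apply Lp.ext
    have h2 := koop_coe (hT.mp n hn) (Φ f)
    have h3 := (hT.mp n hn).quasiMeasurePreserving.ae (hcoe f)
    have h4 := hcoe (koop μ T n f)
    have h5 := koop_coe (hT.mp n hn) f
    filter_upwards [h2, h3, h4, h5] with x h2 h3 h4 h5
    rw [h2, h3, h4, h5]
  have h : ∀ y, Per1 (koop μ T) y → Per1 (koop μ T) (Φ y) := by
    rintro y ⟨Q, hQ, E, hE, hy⟩
    exact ⟨Q, hQ, E, hE, fun n hn hnQ hp => by rw [hcomm n hn, hy n hn hnQ hp]⟩
  have hg : Φ (iv μ A) = iv μ A := by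
    apply Lp.ext
    have h2 := hcoe (iv μ A)
    have h3 : iv μ A =ᵐ[μ] iF A := bl_coe (bm_iF hA)
    filter_upwards [h2, h3] with x h2 h3
    rw [h2, h3]
    unfold iF pp
    by_cases hx : x ∈ A
    · rw [Set.indicator_of_mem hx]; simp
    · rw [Set.indicator_of_notMem hx]; simp
  have hfix := PZ_fix (koop μ T) Φ h1 h hg
  have h6 := hcoe (PZ (koop μ T) (iv μ A))
  rw [hfix] at h6
  filter_upwards [h6] with x hx
  rw [hx]
  unfold pp
  rw [Complex.ofReal_re, Complex.ofReal_im]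
  exact ⟨le_max_right _ _, rfl⟩

end Pool.Agent.Run7.h722.QP
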