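import Pool.Agent.Run7.h982.QP.Iface

/-!
# Project QP, piece REL: few integers `1` modulo `Q` have a prime factor in a sparse set
-/

set_option autoImplicit false
set_option linter.unusedSectionVars false

namespace Pool.Agent.Run7.h722.QP

open Finset Filter Topology
open Pool.Agent.K7.H83.MA Pool.Agent.Run7.h982.QP

open scoped Classical in
theorem tail_sum {E : ℕ → Prop} (hE : Spa E) (ε : ℝ) (hε : 0 < ε) :
    ∃ P : ℕ, ∀ N : ℕ, ∑ p ∈ (Finset.Ioc P N).filter (fun p => p.Prime ∧ E p), 1 / (p : ℝ) ≤ ε := by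
  classical
  unfold Spa at hE
  obtain ⟨S, hS⟩ : ∃ S : Finset Nat.Primes, ∀ T : Finset Nat.Primes, Disjoint T S →
      ∑ p ∈ T, (if E p then 1 / ((p : ℕ) : ℝ) else 0) ≤ ε := by
    have h1 := (summable_iff_vanishing_norm.1 hE) ε hε
    obtain ⟨S, hS⟩ := h1
    refine ⟨S, fun T hT => ?_⟩
    have := hS T hT
    exact (le_abs_self _).trans this.le
  obtain ⟨P, hP⟩ : ∃ P : ℕ, ∀ p ∈ S, (p : ℕ) ≤ P :=
    ⟨S.sup (fun p => (p : ℕ)), fun p hp => Finset.le_sup (f := fun p : Nat.Primes => (p : ℕ)) hp⟩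
  refine ⟨P, fun N => ?_⟩
  set F : Finset ℕ := (Finset.Ioc P N).filter (fun p => p.Prime ∧ E p) with hF
  set T : Finset Nat.Primes := F.attach.image
    (fun x => mkP x.1 (mem_filter.1 x.2).2.1) with hT
  have h3 : ∑ p ∈ T, (if E p then 1 / ((p : ℕ) : ℝ) else 0) =
      ∑ p ∈ F, 1 / (p : ℝ) := by
    rw [hT, Finset.sum_image, ← Finset.sum_attach F]
    · refine Finset.sum_congr rfl fun p _ => ?_
      rw [mkP_coe, if_pos (mem_filter.1 p.2).2.2]
    · intro x _ y _ hxy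
      exact Subtype.ext (congrArg (fun p : Nat.Primes => (p : ℕ)) hxy)
  rw [← h3]
  refine hS T ?_
  rw [Finset.disjoint_left]
  intro p hp hpS
  rw [hT, Finset.mem_image] at hp
  obtain ⟨x, _, rfl⟩ := hp
  have h5 := mem_Ioc.1 (mem_filter.1 x.2).1
  have h6 : (x : ℕ) ≤ P := hP _ hpS
  omega

theorem cnt_class (N m v : ℕ) (hm : 0 < m) :
    (((Ioc 0 N).filter (fun n => n ≡ v [MOD m])).card : ℝ) ≤ (N : ℝ) / m + 1 := by
  have h1 := Nat.Ioc_filter_modEq_card (0 : ℕ) N hm v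
  have hm' : (0 : ℝ) < m := by exact_mod_cast hm
  have h2 : ((((Ioc 0 N).filter (fun n => n ≡ v [MOD m])).card : ℤ) : ℝ) ≤ (N : ℝ) / m + 1 := by
    rw [h1]
    rw [Int.cast_max, Int.cast_sub]
    refine max_le ?_ (by push_cast; positivity)
    have h3 : ((⌊((N : ℚ) - v) / m⌋ : ℤ) : ℝ) ≤ ((N : ℝ) - v) / m := by
      have := Int.floor_le (((N : ℚ) - v) / m)
      have h4 : (((⌊((N : ℚ) - v) / m⌋ : ℤ) : ℚ) : ℝ) ≤ (((((N : ℚ) - v) / m) : ℚ) : ℝ) := by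
        exact_mod_cast this
      push_cast at h4
      exact h4
    have h5 : (((0 : ℝ) - v) / m) - 1 < ((⌊(((0 : ℕ) : ℚ) - v) / m⌋ : ℤ) : ℝ) := by
      have := Int.sub_one_lt_floor ((((0 : ℕ) : ℚ) - v) / m)
      have h4 : ((((((0 : ℕ) : ℚ) - v) / m - 1 : ℚ)) : ℝ) <
          (((⌊(((0 : ℕ) : ℚ) - v) / m⌋ : ℤ) : ℚ) : ℝ) := by
        exact_mod_cast this
      push_cast at h4
      exact_mod_cast h4
    have h6 : ((N : ℝ) - v) / m - (((0 : ℝ) - v) / m - 1) = (N : ℝ) / m + 1 := by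
      field_simp
      ring
    linarith
  exact_mod_cast h2

open scoped Classical in
theorem cnt_pq (N Q p : ℕ) (hQ : 0 < Q) (hp : p.Prime) (hpQ : ¬ p ∣ Q) :
    (((Ioc 0 N).filter (fun n => n % Q = 1 % Q ∧ p ∣ n)).card : ℝ) ≤
      (N : ℝ) / Q * (1 / p) + 1 := by
  rcases Finset.eq_empty_or_nonempty ((Ioc 0 N).filter (fun n => n % Q = 1 % Q ∧ p ∣ n)) with h | h
  · rw [h, Finset.card_empty]; push_cast; positivity
  obtain ⟨n₀, hn₀⟩ := h
  rw [mem_filter] at hn₀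
  have hsub : (Ioc 0 N).filter (fun n => n % Q = 1 % Q ∧ p ∣ n) ⊆
      (Ioc 0 N).filter (fun n => n ≡ n₀ [MOD (Q * p)]) := by
    intro n hn
    rw [mem_filter] at hn ⊢
    refine ⟨hn.1, ?_⟩
    have hcop : Nat.Coprime Q p := ((Nat.Prime.coprime_iff_not_dvd hp).2 hpQ).symm
    rw [← Nat.modEq_and_modEq_iff_modEq_mul hcop]
    refine ⟨?_, ?_⟩
    · unfold Nat.ModEq; rw [hn.2.1, hn₀.2.1]
    · unfold Nat.ModEq
      rw [Nat.mod_eq_zero_of_dvd hn.2.2, Nat.mod_eq_zero_of_dvd hn₀.2.2]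
  have h1 : (((Ioc 0 N).filter (fun n => n % Q = 1 % Q ∧ p ∣ n)).card : ℝ) ≤
      (((Ioc 0 N).filter (fun n => n ≡ n₀ [MOD (Q * p)])).card : ℝ) := by
    exact_mod_cast Finset.card_le_card hsub
  refine h1.trans ((cnt_class N (Q * p) n₀ (Nat.mul_pos hQ hp.pos)).trans (le_of_eq ?_))
  have : (p : ℝ) ≠ 0 := by exact_mod_cast hp.ne_zero
  have : (Q : ℝ) ≠ 0 := by exact_mod_cast hQ.ne'
  push_cast
  field_simp

theorem t_REL : S_REL := by
  classical
  intro E hE η hη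
  obtain ⟨P, hP⟩ := tail_sum hE (η / 2) (by positivity)
  refine ⟨P.factorial, Nat.factorial_pos P, fun Q hQ hPQ => ?_⟩
  have hQr : (0 : ℝ) < Q := by exact_mod_cast hQ
  obtain ⟨P2, hP2⟩ := tail_sum hE (η / (4 * Q)) (by positivity)
  obtain ⟨N₀, hN₀⟩ := exists_nat_ge ((P2 : ℝ) * (4 * Q) / η)
  refine ⟨N₀, fun N hN => ?_⟩
  have hN' : (P2 : ℝ) ≤ η / (4 * Q) * N := by
    have h1 : (P2 : ℝ) * (4 * Q) / η ≤ N := hN₀.trans (by exact_mod_cast hN)
    rw [div_le_iff₀ hη] at h1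
    rw [div_mul_eq_mul_div, le_div_iff₀ (by positivity)]
    linarith
  set F : Finset ℕ := (Finset.Ioc P N).filter (fun p => p.Prime ∧ E p) with hF
  -- the bad numbers
  have hsub : bad E Q N ⊆ (F.filter (fun p => ¬ p ∣ Q)).biUnion
      (fun p => (Ioc 0 N).filter (fun n => n % Q = 1 % Q ∧ p ∣ n)) := by
    intro n hn
    unfold bad cls at hn
    rw [mem_filter, mem_filter] at hn
    obtain ⟨⟨hnI, hnQ⟩, p, hp, hEp, hpn⟩ := hn
    have hpQ : ¬ p ∣ Q := by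
      intro h1
      have h2 : n ≡ 1 [MOD p] := Nat.ModEq.of_dvd h1 hnQ
      have h3 : p ∣ 1 := (h2.dvd_iff dvd_rfl).1 hpn
      exact hp.one_lt.ne' (Nat.dvd_one.1 h3)
    have hpP : P < p := by
      by_contra h1
      push Not at h1
      exact hpQ ((Nat.dvd_factorial hp.pos h1).trans hPQ)
    rw [mem_biUnion]
    refine ⟨p, ?_, mem_filter.2 ⟨hnI, hnQ, hpn⟩⟩
    rw [mem_filter, hF, mem_filter, mem_Ioc]
    rw [mem_Ioc] at hnI
    exact ⟨⟨⟨hpP, (Nat.le_of_dvd hnI.1 hpn).trans hnI.2⟩, hp, hEp⟩, hpQ⟩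
  have h1 : ((bad E Q N).card : ℝ) ≤
      ∑ p ∈ F.filter (fun p => ¬ p ∣ Q), ((N : ℝ) / Q * (1 / p) + 1) := by
    refine le_trans (Nat.cast_le.2 ((Finset.card_le_card hsub).trans Finset.card_biUnion_le)) ?_
    push_cast
    refine Finset.sum_le_sum fun p hp => ?_
    rw [mem_filter, hF, mem_filter] at hp
    exact cnt_pq N Q p hQ hp.1.2.1 hp.2
  have h2 : ∑ p ∈ F.filter (fun p => ¬ p ∣ Q), ((N : ℝ) / Q * (1 / p) + 1) ≤
      ∑ p ∈ F, ((N : ℝ) / Q * (1 / p) + 1) :=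
    Finset.sum_le_sum_of_subset_of_nonneg (Finset.filter_subset _ _)
      (fun p _ _ => by positivity)
  have h3 : ∑ p ∈ F, ((N : ℝ) / Q * (1 / p) + 1) =
      (N : ℝ) / Q * (∑ p ∈ F, 1 / (p : ℝ)) + F.card := by
    rw [Finset.sum_add_distrib, ← Finset.mul_sum, Finset.sum_const, nsmul_eq_mul, mul_one]
  have h4 : (N : ℝ) / Q * (∑ p ∈ F, 1 / (p : ℝ)) ≤ (N : ℝ) / Q * (η / 2) :=
    mul_le_mul_of_nonneg_left (hP N) (by positivity)
  -- the number of the primes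
  have h5 : (F.card : ℝ) ≤ P2 + N * (η / (4 * Q)) := by
    have hF2 : F ⊆ Finset.Ioc 0 P2 ∪ (Finset.Ioc P2 N).filter (fun p => p.Prime ∧ E p) := by
      intro p hp
      rw [hF, mem_filter, mem_Ioc] at hp
      rw [mem_union, mem_Ioc, mem_filter, mem_Ioc]
      rcases le_or_gt p P2 with h6 | h6
      · exact Or.inl ⟨hp.2.1.pos, h6⟩
      · exact Or.inr ⟨⟨h6, hp.1.2⟩, hp.2⟩
    have h6 : (F.card : ℝ) ≤ P2 + (((Finset.Ioc P2 N).filter (fun p => p.Prime ∧ E p)).card : ℝ) := by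
      have := (Finset.card_le_card hF2).trans (Finset.card_union_le _ _)
      rw [Nat.card_Ioc, Nat.sub_zero] at this
      exact_mod_cast this
    have h7 : (((Finset.Ioc P2 N).filter (fun p => p.Prime ∧ E p)).card : ℝ) ≤
        N * ∑ p ∈ (Finset.Ioc P2 N).filter (fun p => p.Prime ∧ E p), 1 / (p : ℝ) := by
      rw [Finset.mul_sum, Finset.card_eq_sum_ones]
      push_cast
      refine Finset.sum_le_sum fun p hp => ?_
      rw [mem_filter, mem_Ioc] at hp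
      have hp0 : (0 : ℝ) < p := by exact_mod_cast hp.2.1.pos
      rw [mul_one_div, le_div_iff₀ hp0, one_mul]
      exact_mod_cast hp.1.2
    have h8 := mul_le_mul_of_nonneg_left (hP2 N) (Nat.cast_nonneg (α := ℝ) N)
    linarith
  have h6 : η * ((N : ℝ) / Q) = (N : ℝ) / Q * (η / 2) + (η / (4 * Q) * N + N * (η / (4 * Q))) := by
    field_simp
    ring
  rw [h6]
  rw [h3] at h2
  linarith

end Pool.Agent.Run7.h722.QP
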