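import Pool.Agent.Run7.h982.QP.Iface

/-!
# Project QP, piece VDC: a van der Corput inequality
-/

set_option autoImplicit false
set_option linter.unusedSectionVars false

namespace Pool.Agent.Run7.h722.QP

open Finset Filter Topology MeasureTheory
open scoped InnerProductSpace ENNReal
open Pool.Agent.K7.H83.MA Pool.Agent.Run7.h982.QP

universe u

section
variable {H : Type u} [NormedAddCommGroup H] [InnerProductSpace ℂ H] [CompleteSpace H]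

theorem uni_inner {S : H →L[ℂ] H} (hu : S ∈ unitary (H →L[ℂ] H)) (x y : H) :
    ⟪S x, S y⟫_ℂ = ⟪x, y⟫_ℂ := by
  have h1 : star S * S = 1 := Unitary.star_mul_self_of_mem hu
  have h2 : ⟪S x, S y⟫_ℂ = ⟪x, (star S * S) y⟫_ℂ := by
    rw [ContinuousLinearMap.star_eq_adjoint]
    change _ = ⟪x, (ContinuousLinearMap.adjoint S) (S y)⟫_ℂ
    rw [ContinuousLinearMap.adjoint_inner_right]
  rw [h2, h1]; rfl

theorem pow_add_apply' (S : H →L[ℂ] H) (m n : ℕ) (x : H) :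
    (S ^ (m + n)) x = (S ^ m) ((S ^ n) x) := by
  rw [pow_add]; rfl

theorem uni_inner_pow {S : H →L[ℂ] H} (hu : S ∈ unitary (H →L[ℂ] H)) (b : H) {j K : ℕ}
    (hj : j ≤ K) : ⟪(S ^ j) b, (S ^ K) b⟫_ℂ = ⟪b, (S ^ (K - j)) b⟫_ℂ := by
  have h1 : (S ^ K) b = (S ^ j) ((S ^ (K - j)) b) := by
    rw [← pow_add_apply']
    congr 2
    omega
  rw [h1, uni_inner (pow_mem hu j)]

theorem norm_sum_pow {S : H →L[ℂ] H} (hu : S ∈ unitary (H →L[ℂ] H)) (b : H) (K : ℕ) :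
    ‖∑ j ∈ range K, (S ^ j) b‖ ^ 2 =
      K * ‖b‖ ^ 2 + 2 * ∑ k ∈ Ico 1 K, ((K : ℝ) - k) * (⟪b, (S ^ k) b⟫_ℂ).re := by
  induction K with
  | zero => simp
  | succ K ih =>
    rw [Finset.sum_range_succ]
    have h1 := @norm_add_sq ℂ H _ _ _ (∑ j ∈ range K, (S ^ j) b) ((S ^ K) b)
    rw [h1, ih, uni_norm (pow_mem hu K)]
    have h2 : RCLike.re (⟪∑ j ∈ range K, (S ^ j) b, (S ^ K) b⟫_ℂ) =
        ∑ k ∈ Ico 1 (K + 1), (⟪b, (S ^ k) b⟫_ℂ).re := by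
      rw [sum_inner, map_sum]
      rw [← Finset.sum_range_reflect]
      rw [Finset.sum_Ico_eq_sum_range]
      refine Finset.sum_congr rfl fun j hj => ?_
      rw [mem_range] at hj
      rw [uni_inner_pow hu b (by omega)]
      have : K - (K - 1 - j) = 1 + j := by omega
      rw [this]
      rfl
    rw [h2]
    have h3 : ∑ k ∈ Ico 1 (K + 1), (((K + 1 : ℕ) : ℝ) - k) * (⟪b, (S ^ k) b⟫_ℂ).re =
        ∑ k ∈ Ico 1 K, ((K : ℝ) - k) * (⟪b, (S ^ k) b⟫_ℂ).re +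
        ∑ k ∈ Ico 1 (K + 1), (⟪b, (S ^ k) b⟫_ℂ).re := by
      have h4 : ∑ k ∈ Ico 1 (K + 1), (((K + 1 : ℕ) : ℝ) - k) * (⟪b, (S ^ k) b⟫_ℂ).re =
          ∑ k ∈ Ico 1 (K + 1), ((K : ℝ) - k) * (⟪b, (S ^ k) b⟫_ℂ).re +
          ∑ k ∈ Ico 1 (K + 1), (⟪b, (S ^ k) b⟫_ℂ).re := by
        rw [← Finset.sum_add_distrib]
        refine Finset.sum_congr rfl fun k _ => ?_
        push_cast
        ring
      rw [h4]
      congr 1
      rcases Nat.eq_zero_or_pos K with rfl | hK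
      · simp
      · rw [Finset.sum_Ico_succ_top (by omega)]
        simp
    rw [h3]
    push_cast
    ring

end

theorem t_VDC : S_VDC.{u} := by
  intro H _ _ _ r c v hv q hq Q hQ e he hfix B K hK
  have hS : v Q ∈ unitary (H →L[ℂ] H) := hv.uni Q hQ
  set S : H →L[ℂ] H := v Q with hSdef
  set b : H := PI v q B with hb
  have hpow : ∀ k : ℕ, v (Q ^ k) = S ^ k := fun k => hv.pow hQ k
  -- the terms
  have hterm : ∀ k : ℕ, ⟪B, PI v q (v (Q ^ k) B)⟫_ℂ = ⟪b, (S ^ k) b⟫_ℂ := by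
    intro k
    have h1 : PI v q (v (Q ^ k) B) = v (Q ^ k) b := PI_comm hv hq (pow_pos hQ k) B
    have h2 : PI v q (v (Q ^ k) B) = PI v q (PI v q (v (Q ^ k) B)) :=
      (PI_of_mem (PI_mem v _)).symm
    rw [h2, ← PI_self, h1, hpow]
  have he1 : e ∈ IV v q := mem_IV.2 fun i => hfix _ (hq i)
  have he2 : ⟪e, b⟫_ℂ = ⟪e, B⟫_ℂ := by
    rw [hb, ← PI_self, PI_of_mem he1]
  have hSe : ∀ j : ℕ, (S ^ j) e = e := by
    intro j
    rw [← hpow]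
    exact hfix _ (pow_pos hQ j)
  have he3 : ∀ j : ℕ, ⟪e, (S ^ j) b⟫_ℂ = ⟪e, B⟫_ℂ := by
    intro j
    rw [← he2, ← uni_inner (pow_mem hS j) e b, hSe]
  have hsum : ⟪e, ∑ j ∈ range K, (S ^ j) b⟫_ℂ = (K : ℂ) * ⟪e, B⟫_ℂ := by
    rw [inner_sum, Finset.sum_congr rfl fun j _ => he3 j, Finset.sum_const, card_range,
      nsmul_eq_mul]
  have hle : (K : ℝ) * ‖⟪e, B⟫_ℂ‖ ≤ ‖∑ j ∈ range K, (S ^ j) b‖ := by
    have h1 := norm_inner_le_norm (𝕜 := ℂ) e (∑ j ∈ range K, (S ^ j) b)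
    rw [hsum, norm_mul, he, one_mul, Complex.norm_natCast] at h1
    exact h1
  have hsq : (K : ℝ) ^ 2 * ‖⟪e, B⟫_ℂ‖ ^ 2 ≤ ‖∑ j ∈ range K, (S ^ j) b‖ ^ 2 := by
    rw [← mul_pow]
    exact pow_le_pow_left₀ (by positivity) hle 2
  rw [norm_sum_pow hS] at hsq
  have hbB : ‖b‖ ^ 2 ≤ ‖B‖ ^ 2 := pow_le_pow_left₀ (norm_nonneg _) (PI_norm v B) 2
  have hK0 : (0 : ℝ) ≤ K := Nat.cast_nonneg K
  have h5 := mul_le_mul_of_nonneg_left hbB hK0
  simp only [hterm]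
  linarith

end Pool.Agent.Run7.h722.QP
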